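import Pool.Agent.P.MP_7bb7e1_gt.H.Final
import Pool.Agent.P.MP_7bb7e1_gt.H.Inv

namespace Pool.Agent.Results.MP_7bb7e1_gt.Concordance

open Pool.Agent.P.MP_7bb7e1_gt.HF

theorem result : ∀ a₀ a₁ : (Fin 3 → ℝ) × ℝ → Fin 3 → ℝ, IsFol a₀ → IsFol a₁ → IsCpt a₀ → IsCpt a₁ →
    (gv a₀ = gv a₁ ↔ Conc a₀ a₁) := fun _ _ h0 h1 c0 c1 =>
  ⟨Pool.Agent.P.MP_7bb7e1_gt.H.conc_of_gv h0 h1 c0 c1, Pool.Agent.P.MP_7bb7e1_gt.H.A.gv_eq_of_conc⟩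

end Pool.Agent.Results.MP_7bb7e1_gt.Concordance
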